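import Pool.Agent.N39.RW.UniF

set_option autoImplicit false

/-!
# Triples of a prime, a product of two primes and an almost prime with differences `d' < d`, in all windows around a
# positive proportion of the integers, uniformly for all admissible `d' < d ≤ K₀ X`
-/

namespace Pool.Agent.Results.MP_1039f5_nt.ChenTriplesInShortWindows

open Filter

/-- the members `m - d`, `m - d'`, `m` of the triple with the largest member `m` -/
def member (d' d : ℕ) (l : Fin 3) (m : ℕ) : ℕ := if l = 0 then m - d else if l = 1 then m - d' else m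

/-- the number of the residue classes modulo `p` which contain an element of `{0, d', d}` -/
def nu (d' d p : ℕ) : ℕ := ({0 % p, d' % p, d % p} : Finset ℕ).card

/-- the partial product over the primes `p ≤ X` of the singular series of `{0, d', d}` -/
noncomputable def S (d' d X : ℕ) : ℝ :=
  ∏ p ∈ (Finset.Icc 1 X).filter Nat.Prime, ((1 - (nu d' d p : ℝ) / p) / (1 - 1 / (p : ℝ)) ^ 3)

/-- the member `i` is prime, the member `j` is a product of at most two primes, and all three members are products of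
at most `r` primes, all larger than `z` -/
def Good (d' d : ℕ) (i j : Fin 3) (r : ℕ) (z : ℝ) (m : ℕ) : Prop :=
  (member d' d i m).Prime ∧ (member d' d j m).primeFactorsList.length ≤ 2 ∧
    ∀ l, (member d' d l m).primeFactorsList.length ≤ r ∧
      ∀ q : ℕ, q.Prime → q ∣ member d' d l m → z < (q : ℝ)

/-- all prime factors of all three members are larger than `z` -/
def Sieved (d' d : ℕ) (z : ℝ) (m : ℕ) : Prop :=
  ∀ l, ∀ q : ℕ, q.Prime → q ∣ member d' d l m → z < (q : ℝ)

/-- `n` is regular: in ALL windows `(u, v]` with `u ≤ n ≤ v` and `K (log X) ^ 3 / S ≤ v - u ≤ n` there are at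
least `c₁ S (v - u) / (log X) ^ 3` good triples with smallest member in `(u, v]`, and at most
`c₂ S (v - u) / (log X) ^ 3` sieved ones, at the level `X ^ (1 / r)`. (The smallest member is `m - d`.) -/
def Regular (d' d : ℕ) (i j : Fin 3) (r : ℕ) (c₁ c₂ K : ℝ) (X n : ℕ) : Prop :=
  ∀ u v : ℕ, u ≤ n → n ≤ v → K * Real.log X ^ 3 / S d' d X ≤ (v : ℝ) - u → (v : ℝ) - u ≤ n →
    c₁ * S d' d X * ((v : ℝ) - u) / Real.log X ^ 3 ≤
      ({m : ℕ | u + d < m ∧ m ≤ v + d ∧ Good d' d i j r ((X : ℝ) ^ (1 / (r : ℝ))) m}.ncard : ℝ) ∧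
    ({m : ℕ | u + d < m ∧ m ≤ v + d ∧ Sieved d' d ((X : ℝ) ^ (1 / (r : ℝ))) m}.ncard : ℝ) ≤
      c₂ * S d' d X * ((v : ℝ) - u) / Real.log X ^ 3

/-- the shifts of the smallest member -/
def sh (d' d : ℕ) : Fin 3 → ℕ := ![0, d - d', d]

theorem mem_sh (d' d m : ℕ) (hd : d' ≤ d) (l : Fin 3) : member d' d l (m + d) = m + sh d' d l := by
  unfold member sh
  fin_cases l
  · simp
  · simp
    omega
  · simp

theorem nu_eq (d' d p : ℕ) (hp : p.Prime) (hd : d' ≤ d) : Pool.Agent.N39.RW.nuh (sh d' d) p = nu d' d p := by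
  classical
  unfold Pool.Agent.N39.RW.nuh nu
  have h1 : (Finset.univ : Finset (Fin 3)).image (fun l => sh d' d l % p) =
      ({0 % p, d' % p, d % p} : Finset ℕ).image (fun c => (d % p + (p - c)) % p) := by
    have hp0 := hp.pos
    have e0 : (d % p + (p - 0 % p)) % p = d % p := by
      rw [Nat.zero_mod, Nat.sub_zero, Nat.add_mod_right, Nat.mod_mod]
    have e1 : (d % p + (p - d' % p)) % p = (d - d') % p := by
      have h3 : d' % p < p := Nat.mod_lt _ hp0
      have h4 : (d - d' + d') % p = d % p := by rw [Nat.sub_add_cancel hd]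
      have h5 : (d % p + (p - d' % p)) % p = ((d - d') % p + (d' % p) + (p - d' % p)) % p := by
        rw [← h4, Nat.add_mod ((d - d' + d') % p), Nat.mod_mod, Nat.add_mod (d - d') d' p,
          Nat.add_mod ((d - d') % p + d' % p) (p - d' % p)]
      rw [h5, add_assoc, Nat.add_sub_cancel' h3.le, Nat.add_mod_right, Nat.mod_mod]
    have e2 : (d % p + (p - d % p)) % p = 0 % p := by
      have h3 : d % p < p := Nat.mod_lt _ hp0
      rw [Nat.add_sub_cancel' h3.le, Nat.mod_self, Nat.zero_mod]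
    ext x
    simp only [Finset.mem_image, Finset.mem_univ, true_and, Finset.mem_insert, Finset.mem_singleton]
    constructor
    · rintro ⟨l, rfl⟩
      fin_cases l
      · exact ⟨d % p, Or.inr (Or.inr rfl), by simpa [sh] using e2⟩
      · exact ⟨d' % p, Or.inr (Or.inl rfl), by simpa [sh] using e1⟩
      · exact ⟨0 % p, Or.inl rfl, by simpa [sh] using e0⟩
    · rintro ⟨c, hc | hc | hc, rfl⟩
      · subst hc
        exact ⟨2, by simpa [sh] using e0.symm⟩
      · subst hc
        exact ⟨1, by simpa [sh] using e1.symm⟩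
      · subst hc
        exact ⟨0, by simpa [sh] using e2.symm⟩
  rw [h1]
  apply Finset.card_image_of_injOn
  intro c hc c' hc' he
  have hp0 := hp.pos
  have hlt : ∀ x ∈ (({0 % p, d' % p, d % p} : Finset ℕ) : Set ℕ), x < p := by
    intro x hx
    simp only [Finset.coe_insert, Finset.coe_singleton, Set.mem_insert_iff, Set.mem_singleton_iff] at hx
    rcases hx with h | h | h <;> rw [h] <;> exact Nat.mod_lt _ hp0
  have h3 := hlt c hc
  have h4 := hlt c' hc'
  simp only at he
  have h5 : (p - c) ≡ (p - c') [MOD p] := Nat.ModEq.add_left_cancel' (d % p) he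
  unfold Nat.ModEq at h5
  rcases Nat.eq_zero_or_pos c with h0 | h0
  · rcases Nat.eq_zero_or_pos c' with h0' | h0'
    · omega
    · rw [h0, Nat.sub_zero, Nat.mod_self, Nat.mod_eq_of_lt (show p - c' < p by omega)] at h5
      omega
  · rcases Nat.eq_zero_or_pos c' with h0' | h0'
    · rw [h0', Nat.sub_zero, Nat.mod_self, Nat.mod_eq_of_lt (show p - c < p by omega)] at h5
      omega
    · rw [Nat.mod_eq_of_lt (show p - c < p by omega), Nat.mod_eq_of_lt (show p - c' < p by omega)] at h5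
      omega

theorem S_eq (d' d X : ℕ) (hd : d' ≤ d) : Pool.Agent.N39.RW.SX (sh d' d) X = S d' d X := by
  unfold Pool.Agent.N39.RW.SX S
  apply Finset.prod_congr rfl
  intro p hp
  rw [nu_eq d' d p (Finset.mem_filter.1 hp).2 hd]

theorem ncard_shift (d u v : ℕ) (P Q : ℕ → Prop) (h : ∀ m, P m ↔ Q (m + d)) :
    Set.ncard {m : ℕ | u < m ∧ m ≤ v ∧ P m} = Set.ncard {m : ℕ | u + d < m ∧ m ≤ v + d ∧ Q m} := by
  have e : {m : ℕ | u + d < m ∧ m ≤ v + d ∧ Q m} = (fun m => m + d) '' {m : ℕ | u < m ∧ m ≤ v ∧ P m} := by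
    ext m
    simp only [Set.mem_image]
    constructor
    · rintro ⟨h1, h2, h3⟩
      have e1 : m - d + d = m := by omega
      exact ⟨m - d, ⟨by omega, by omega, (h (m - d)).2 (by rw [e1]; exact h3)⟩, e1⟩
    · rintro ⟨m', ⟨h1, h2, h3⟩, rfl⟩
      exact ⟨by omega, by omega, (h m').1 h3⟩
  rw [e, Set.ncard_image_of_injective _ (fun a b hab => by simpa using hab)]

theorem result : ∃ (r : ℕ) (c₁ c₂ K μ : ℝ), 1 ≤ r ∧ 0 < c₁ ∧ 0 < c₂ ∧ 0 < K ∧ 0 < μ ∧
    ∀ K₀ : ℕ, ∀ᶠ X : ℕ in atTop, ∀ (d' d : ℕ) (i j : Fin 3), i ≠ j → 1 ≤ d' → d' < d → d ≤ K₀ * X →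
      (∀ p : ℕ, p.Prime → nu d' d p < p) →
      μ * X ≤ ({n : ℕ | X < n ∧ n ≤ 2 * X ∧ Regular d' d i j r c₁ c₂ K X n}.ncard : ℝ) := by
  classical
  obtain ⟨r, hr, c₁, c₂, K, μ, hc₁, hc₂, hK, hμ, H⟩ := Pool.Agent.N39.RW.uniS 3 (by norm_num)
  refine ⟨r, c₁, c₂, K, μ, hr, hc₁, hc₂, hK, hμ, fun K₀ => ?_⟩
  filter_upwards [H K₀] with X hX
  intro d' d i j hij hd1 hdd hdX hadm
  have h1 := hX (sh d' d) i j hij (by
      intro l l' h
      unfold sh at h
      fin_cases l <;> fin_cases l' <;> simp at h <;> first | rfl | omega) (by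
      intro l
      unfold sh
      fin_cases l
      · simp
      · simp
        omega
      · simpa using hdX) (by
      intro p hp
      have h2 := hadm p hp
      rw [← nu_eq d' d p hp hdd.le, ← Pool.Agent.N39.RW.nuB_nuh _ p hp] at h2
      by_contra hcon
      push Not at hcon
      have h3 : (Finset.range p).filter (fun r => Pool.Agent.N39.RW.QS (sh d' d) p r) = Finset.range p :=
        Finset.filter_true_of_mem (fun n _ => hcon n)
      have h4 : Pool.Agent.H373R2.T7.nuB (Pool.Agent.N39.RW.QS (sh d' d)) p = p := by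
        unfold Pool.Agent.H373R2.T7.nuB
        have h5 := congrArg Finset.card h3
        rw [Finset.card_range] at h5
        refine Eq.trans ?_ h5
        congr
      omega)
  refine h1.trans (Nat.cast_le.2 (Set.ncard_le_ncard ?_ ((Set.finite_Iic (2 * X)).subset fun n hn => hn.2.1)))
  rintro n ⟨hn1, hn2, hn3⟩
  refine ⟨hn1, hn2, fun u v hu hv h3 h4 => ?_⟩
  rw [← S_eq d' d X hdd.le] at h3 ⊢
  obtain ⟨h5, h6⟩ := hn3 u v hu hv h3 h4
  rw [ncard_shift d u v _ (Good d' d i j r ((X : ℝ) ^ (1 / (r : ℝ)))) (by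
    intro m
    unfold Pool.Agent.N39.RW.UC Good
    simp only [mem_sh d' d m hdd.le])] at h5
  rw [ncard_shift d u v _ (Sieved d' d ((X : ℝ) ^ (1 / (r : ℝ)))) (by
    intro m
    unfold Pool.Agent.N39.RW.UR Sieved
    simp only [mem_sh d' d m hdd.le])] at h6
  exact ⟨h5, h6⟩

end Pool.Agent.Results.MP_1039f5_nt.ChenTriplesInShortWindows
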