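import Mathlib
import Pool.Agent.N610.JV.MART
import Pool.Agent.N610.JV.WIN
import Pool.Agent.N610.JV.DROPNB
import Pool.Agent.N610.JV.SUM
import Pool.Agent.N610.JV.JUMP
import Pool.Agent.N610.JW.COL
import Pool.Agent.N610.JW.MOM
import Pool.Agent.N610.JW.UNI
import Pool.Agent.N610.JW.COR
import Pool.Agent.N610.JW.STB

/-!
# Local densities of prime values of polynomials: jump inequality

Let `F = (f_1, …, f_k)` be a system of irreducible polynomials, `V = ∏_{p ≤ Y} (1 - ω_F(p) / p)` and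
`A` a set of integers `n` for which no `f_i(n)` has a prime factor `≤ Y ^ (1 / r)` (for example: all
`|f_i(n)|` are prime). The density `#(A ∩ (n, n + H]) / (V H)` changes, as a function of `H`, on
average over the integers `n` of an interval `(N, N + Y]`, at most `K / λ ^ 2` times by at least `λ`,
uniformly in the system `F` (of bounded degree, the coefficients bounded by a power of `Y`), `N`, `A`
and `λ`.
-/

set_option autoImplicit false

open Polynomial Finset Filter

namespace Pool.Agent.Results.MP_1039f5_nt.PolynomialJumps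

/-- systems of `k` different irreducible polynomials of degrees `1, …, d` with positive leading
coefficients, with coefficients of absolute value at most `T`, and without fixed prime divisor of
their product -/
structure Admissible (k d : ℕ) (T : ℝ) (f : Fin k → ℤ[X]) : Prop where
  irreducible : ∀ i, Irreducible (f i)
  degree : ∀ i, 0 < (f i).natDegree ∧ (f i).natDegree ≤ d
  leading : ∀ i, 0 < (f i).leadingCoeff
  distinct : Function.Injective f
  height : ∀ i j, |(((f i).coeff j : ℤ) : ℝ)| ≤ T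
  adm : ∀ p : ℕ, p.Prime → ∃ m : ℕ, ∀ i, ¬ (p : ℤ) ∣ (f i).eval (m : ℤ)

open Classical in
/-- `ω_F(p)`, the number of the residue classes mod `p` in which some `f i` has a zero -/
noncomputable def omega {k : ℕ} (f : Fin k → ℤ[X]) (p : ℕ) : ℕ :=
  ((range p).filter (fun a : ℕ => ∃ i, (p : ℤ) ∣ (f i).eval (a : ℤ))).card

/-- the sieve product `∏_{p ≤ Y} (1 - ω_F(p) / p)` -/
noncomputable def V {k : ℕ} (f : Fin k → ℤ[X]) (Y : ℕ) : ℝ :=
  ∏ p ∈ (Icc 1 Y).filter Nat.Prime, (1 - (omega f p : ℝ) / p)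

/-- for the elements `m` of `A` in `(a, b]` no value `f i (m)` has a prime factor `≤ z` -/
def Rough {k : ℕ} (f : Fin k → ℤ[X]) (A : Set ℕ) (z : ℝ) (a b : ℕ) : Prop :=
  ∀ m ∈ A, a < m → m ≤ b → ∀ i, ∀ p : ℕ, p.Prime → (p : ℤ) ∣ (f i).eval (m : ℤ) → z < p

open Classical in
/-- the density of `A` in `(n, n + H]`, relative to `v` -/
noncomputable def density (A : Set ℕ) (v : ℝ) (n H : ℕ) : ℝ :=
  (((Ioc n (n + H)).filter (fun m => m ∈ A)).card : ℝ) / (v * H)

/-- there are at least `k` changes by at least `lam`: there are `k` non-overlapping pairs of lengths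
between `lo` and `Y` such that the densities (of `A`, from `n`, relative to `v`) at the two lengths of
every pair differ by at least `lam` -/
def Changes (A : Set ℕ) (v lo : ℝ) (Y n : ℕ) (lam : ℝ) (k : ℕ) : Prop :=
  ∃ s t : ℕ → ℕ, (∀ i < k, lo ≤ s i ∧ s i < t i ∧ t i ≤ Y ∧
      lam ≤ |density A v n (t i) - density A v n (s i)|) ∧
    ∀ i, i + 1 < k → t i ≤ s (i + 1)

/-- the density changes by at least `ε` between two lengths in `[a, b]` -/
def Oscillates (A : Set ℕ) (v : ℝ) (n a b : ℕ) (ε : ℝ) : Prop :=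
  ∃ s t : ℕ, a ≤ s ∧ s < t ∧ t ≤ b ∧ ε ≤ |density A v n t - density A v n s|

open Classical in
/-- (1) For all `k, d, C, r ≥ 1` there is `K` such that for all large `Y`, all systems `F` of `k`
polynomials of degree `≤ d` and height `≤ Y ^ C`, all `N`, all sets `A` such that for `m ∈ A`,
`N < m ≤ N + 3 Y`, no `f_i(m)` has a prime factor `≤ Y ^ (1 / r)`, and all `λ > 0`: if from every
`n ∈ (N, N + Y]` there are `M(n)` changes of the density by at least `λ`, between lengths from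
`max (log Y) (1 / V) / C` to `Y`, then the mean value of `M(n)` is at most `K / λ ^ 2`.
(2) In the same situation let `T_0 ≤ T_1 ≤ … ≤ T_J ≤ Y` be any lengths, `T_0 ≥ max (log Y) (1 / V) / C`.
For all but at most `K / ε ^ 3` of the blocks `[T_j, T_(j+1)]` the density changes by less than `ε`
between any two lengths of the block, for all but at most `ε Y` of the `n ∈ (N, N + Y]`.
(3) Let `F` be any system of irreducible nonconstant polynomials, no two equal up to sign, and `0 < θ ≤ 1`. There is `K` such that for all large `X`,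
all `Y` with `X ^ θ ≤ Y ≤ X`, and all sets `A` of integers `m` such that all `|f_i(m)|` are prime: if
from every `n ∈ (X, X + Y]` there are `M(n)` changes by at least `λ` of
`#(A ∩ (n, n + H]) (log X) ^ k / H`, between lengths from `(log X) ^ k` to `Y`, then the mean value of
`M(n)` is at most `K / λ ^ 2`. -/
theorem result :
    (∀ k d C r : ℕ, 1 ≤ k → 1 ≤ d → 1 ≤ C → 1 ≤ r → ∃ K : ℝ, 0 < K ∧
      ∀ᶠ Y : ℕ in atTop, ∀ f : Fin k → ℤ[X], Admissible k d ((Y : ℝ) ^ C) f → ∀ (N : ℕ) (A : Set ℕ),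
        Rough f A ((Y : ℝ) ^ (1 / (r : ℝ))) N (N + 3 * Y) →
          ∀ lam : ℝ, 0 < lam → ∀ M : ℕ → ℕ, (∀ n, N < n → n ≤ N + Y →
            Changes A (V f Y) (max (Real.log Y) (1 / V f Y) / C) Y n lam (M n)) →
              ∑ n ∈ Ioc N (N + Y), (M n : ℝ) ≤ K * Y / lam ^ 2) ∧
    (∀ k d C r : ℕ, 1 ≤ k → 1 ≤ d → 1 ≤ C → 1 ≤ r → ∃ K : ℝ, 0 < K ∧
      ∀ᶠ Y : ℕ in atTop, ∀ f : Fin k → ℤ[X], Admissible k d ((Y : ℝ) ^ C) f → ∀ (N : ℕ) (A : Set ℕ),
        Rough f A ((Y : ℝ) ^ (1 / (r : ℝ))) N (N + 3 * Y) →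
          ∀ (J : ℕ) (T : ℕ → ℕ), Monotone T → max (Real.log Y) (1 / V f Y) / C ≤ T 0 → T J ≤ Y →
            ∀ ε : ℝ, 0 < ε →
              (((range J).filter (fun j => ε * Y < (((Ioc N (N + Y)).filter
                (fun n => Oscillates A (V f Y) n (T j) (T (j + 1)) ε)).card : ℝ))).card : ℝ) ≤
                  K / ε ^ 3) ∧
    (∀ (k : ℕ) (f : Fin k → ℤ[X]), 1 ≤ k → (∀ i, Irreducible (f i)) →
      (∀ i, 0 < (f i).natDegree) → (∀ i j, i ≠ j → f i ≠ f j ∧ f i ≠ -f j) →
        ∀ θ : ℝ, 0 < θ → θ ≤ 1 → ∃ K : ℝ, 0 < K ∧ ∀ᶠ X : ℕ in atTop, ∀ Y : ℕ, (X : ℝ) ^ θ ≤ Y →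
          Y ≤ X → ∀ A : Set ℕ, (∀ m ∈ A, ∀ i, ((f i).eval (m : ℤ)).natAbs.Prime) →
            ∀ lam : ℝ, 0 < lam → ∀ M : ℕ → ℕ, (∀ n, X < n → n ≤ X + Y →
              Changes A (1 / Real.log X ^ k) (Real.log X ^ k) Y n lam (M n)) →
                ∑ n ∈ Ioc X (X + Y), (M n : ℝ) ≤ K * Y / lam ^ 2) := by
  have hJ : Pool.Agent.N610.JV.S_JUMP := Pool.Agent.N610.JV.t_JUMP Pool.Agent.N610.JV.t_MART
    Pool.Agent.N610.JV.t_WIN (Pool.Agent.N610.JV.t_SUM Pool.Agent.N610.JV.t_DROP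
      (Pool.Agent.N610.JV.t_NB Pool.Agent.N610.JV.t_DROP))
  have hU : Pool.Agent.N610.JW.S_UNI :=
    Pool.Agent.N610.JW.t_UNI hJ (Pool.Agent.N610.JW.t_MOM Pool.Agent.N610.JW.t_COL)
      Pool.Agent.N610.JW.t_COL
  have hS : ∀ (k d : ℕ) (T : ℝ) (f : Fin k → ℤ[X]), Admissible k d T f →
      Pool.Agent.N610.JW.SysH k d T f := fun k d T f h =>
    ⟨⟨h.irreducible, fun i => (h.degree i).1, h.leading, h.distinct, h.adm⟩,
      fun i => (h.degree i).2, h.height⟩
  refine ⟨?_, ?_, ?_⟩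
  · intro k d C r hk hd hC hr
    obtain ⟨K, hK, h1⟩ := hU k d C r hk hd hC hr
    refine ⟨K, hK, ?_⟩
    filter_upwards [h1] with Y hY f hf
    exact hY f (hS _ _ _ _ hf)
  · intro k d C r hk hd hC hr
    obtain ⟨K, hK, h1⟩ := Pool.Agent.N610.JW.t_STB hU k d C r hk hd hC hr
    refine ⟨K, hK, ?_⟩
    filter_upwards [h1] with Y hY f hf
    exact hY f (hS _ _ _ _ hf)
  · exact Pool.Agent.N610.JW.t_COR hU

end Pool.Agent.Results.MP_1039f5_nt.PolynomialJumps
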