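import Mathlib
import Pool.Agent.N679.RG.All8
import Pool.Agent.N679.RG.FinT
import Pool.Agent.N679.RG.PHI

/-!
# Prime triples `p, p - d, p - e` with the right order of magnitude for 5 / 9 of the even `d` of every window of length
`λ log x` and a positive proportion of the `e` near `d`, or for almost all multiples `d` of a bounded number

For every `k ≥ 0` and `ε > 0` there are `Q` and `c, δ > 0` such that for every `λ > 0` there is a `κ > 0`: for all large
`x` and all `T ≥ λ log x`, at least one of the following two statements holds.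

* In EVERY interval `(u, u + T]` with `2 T ≤ u ≤ x / 400` at least `(5 / 9 - ε) T / 2` of the even `d` (there are about
  `T / 2`) are such that for at least `δ T ^ k` vectors `e` of `k` different integers of `[d - T, d + T]`, all different
  from `d`, there are at least `κ (d / φ(d)) x / (log x) ^ (k + 2)` primes `p ≤ x` for which `p - d` and all `p - e i` are
  prime.
* For some `q ≤ Q` and some `X` with `c T ≤ X ≤ T` all but at most `ε X / q` of the multiples `d ≤ X` of `q` are such
  that for at least `δ T ^ k` vectors `e` of `k` different integers of `[d - T, d + T]`, different from `0` and `d`, there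
  are at least `κ x / (log x) ^ (k + 2)` primes `p ≤ x` for which `p - d` and all `p - e i` are prime.

The question on prime triples is the case `k = 1`: the counts are `π₃(x, min(d, e), max(d, e))`.
-/

set_option autoImplicit false

namespace Pool.Agent.Results.MP_1039f5_nt.TriplesInEveryWindow

open Finset Filter

/-- the vectors of `k` different integers in `[d - T, d + T]`, all different from `d` -/
noncomputable def near (k T d : ℕ) : Finset (Fin k → ℤ) :=
  (Fintype.piFinset (fun _ : Fin k => Icc ((d : ℤ) - T) (d + T))).filter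
    (fun e => Function.Injective e ∧ ∀ i, e i ≠ (d : ℤ))

/-- the number of the primes `p ≤ x` such that `p - d` and all `p - e i` are prime
(for `k = 1` and `0 < e < d` this is `π₃(x, e, d)`, for `e > d` it is `π₃(x, d, e)`) -/
def tuples {k : ℕ} (x d : ℕ) (e : Fin k → ℤ) : ℕ :=
  ((Icc 1 x).filter (fun p : ℕ => p.Prime ∧ ((p : ℤ) - d).toNat.Prime ∧ ∀ i, ((p : ℤ) - e i).toNat.Prime)).card

open Classical in
/-- the right order of magnitude, with the factor `d / φ(d)`, for many `e` -/
def Rich (k : ℕ) (δ κ : ℝ) (T x d : ℕ) : Prop :=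
  δ * (T : ℝ) ^ k ≤ (((near k T d).filter (fun e =>
    κ * ((d : ℝ) / Nat.totient d * (x / (Real.log x) ^ (k + 2))) ≤ (tuples x d e : ℝ))).card : ℝ)

open Classical in
/-- the right order of magnitude for many `e` without the value `0` -/
def Rich₀ (k : ℕ) (δ κ : ℝ) (T x d : ℕ) : Prop :=
  δ * (T : ℝ) ^ k ≤ (((near k T d).filter (fun e => (∀ i, e i ≠ 0) ∧
    κ * (x / (Real.log x) ^ (k + 2)) ≤ (tuples x d e : ℝ))).card : ℝ)

open Classical in
theorem result : ∀ (k : ℕ) (ε : ℝ), 0 < ε → ∃ (Q : ℕ) (c δ : ℝ), 0 < c ∧ 0 < δ ∧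
    ∀ lam : ℝ, 0 < lam → ∃ κ : ℝ, 0 < κ ∧ ∀ᶠ x : ℕ in atTop, ∀ T : ℕ, lam * Real.log x ≤ T →
      (∀ u : ℕ, 2 * T ≤ u → 400 * u ≤ x →
        (5 / 9 - ε) * (T / 2) ≤ (((Ioc u (u + T)).filter (fun d => Even d ∧ Rich k δ κ T x d)).card : ℝ)) ∨
      ∃ q X : ℕ, 1 ≤ q ∧ q ≤ Q ∧ c * T ≤ (X : ℝ) ∧ X ≤ T ∧
        (((Icc 1 X).filter (fun d => q ∣ d ∧ ¬ Rich₀ k δ κ T x d)).card : ℝ) ≤ ε * (X / q) :=
  Pool.Agent.N679.RG.conclN Pool.Agent.N679.RG.fint Pool.Agent.N679.RG.phi_window

end Pool.Agent.Results.MP_1039f5_nt.TriplesInEveryWindow
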